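import Mathlib
import Pool.Agent.Y701.ZT.Fin

/-!
# The splitting fields of the zeta numerators in a `ℤ_p`-tower contain the layers of the cyclotomic
`ℤ_p`-extension of `ℚ`

For every `ℤ_p`-tower of curves `X_n` over a finite field of characteristic `p` with finite ramification
locus and all large `n`, the splitting field `ℚ_n` of `P(X_n, s)` over `ℚ` contains every real subfield of
`ℚ(μ_{p ^ n})` whose degree over `ℚ` is a power of `p`. The largest one has degree `p ^ (n - 1)`
(`2 ^ (n - 2)` if `p = 2`), so this number divides `[ℚ_n : ℚ]`; in particular `[ℚ_n : ℚ] → ∞`.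

Idea: an automorphism which fixes all reciprocal roots of `P(X_n, s)` fixes the coefficients of
`L(χ, s)` for a character `χ` of order `p ^ n`; these are sums of `p ^ n`-th roots of unity whose exponents
are finitely many fixed `p`-adic integers, so that it permutes these exponents modulo `p ^ n`. One of the
exponents can be taken to be a unit, because some Frobenius element generates the Galois group of the
tower. For large `n` the automorphism then acts on `μ_{p ^ n}` through a root of unity of `ℤ_p`.
-/

open PowerSeries

namespace Pool.Agent.Results.MP_dfc37b_nt.CyclotomicLayers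

open Pool.Agent.H707R3

open scoped PowerSeries.WithPiTopology in
/-- The zeta function `Z(X, s) = ∏ (1 - s ^ deg x)⁻¹`, product over the closed points `x` of the curve
`X` with function field `K` over `k`, as a formal power series with complex coefficients. -/
noncomputable def zeta (k K : Type) [Field k] [Field K] [Algebra k K] : PowerSeries ℂ :=
  ∏' x : Place k K, (1 - X ^ x.deg)⁻¹

/-- `A` is the multiset of complex reciprocal roots of `P(X, s) = Z(X, s) (1 - s) (1 - q s)`, `q` the number of elements of `k`:
`P(X, s) = ∏ (1 - α s)`, product over `α ∈ A`. -/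
def IsRecipRoots (k K : Type) [Field k] [Field K] [Algebra k K] (A : Multiset ℂ) : Prop :=
  zeta k K * (1 - X) * (1 - C (Nat.card k : ℂ) * X) = (A.map fun α => 1 - C α * X).prod

/-- For every `ℤ_p`-tower there is `N` such that for `n ≥ N` the zeta function of the layer `X_n` (the
intermediate field `K` with `[K : F] = p ^ n`) has reciprocal roots as above, and the field `ℚ_n` they
generate contains every real subfield `B` of `ℚ(μ_{p ^ n})` whose degree is a power of `p`; moreover
`p ^ n` divides `p [ℚ_n : ℚ]` (respectively `4 [ℚ_n : ℚ]` if `p = 2`), and `[ℚ_n : ℚ]` is finite. -/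
theorem result (p : ℕ) [Fact p.Prime] (k F E : Type) [Field k] [Finite k] [CharP k p]
    [Field F] [Algebra k F] [Field E] [Algebra F E] [Algebra k E] [IsScalarTower k F E]
    (h : IsZpTower k F E p) :
    ∃ N : ℕ, ∀ n, N ≤ n → ∀ K : IntermediateField F E, Module.finrank F K = p ^ n →
      (∃ A : Multiset ℂ, IsRecipRoots k K A) ∧
        ∀ A : Multiset ℂ, IsRecipRoots k K A →
          (∀ B : IntermediateField ℚ ℂ,
            B ≤ IntermediateField.adjoin ℚ {w : ℂ | w ^ p ^ n = 1} →
            (∃ j : ℕ, Module.finrank ℚ B = p ^ j) → (∀ x ∈ B, (starRingEnd ℂ) x = x) →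
            B ≤ IntermediateField.adjoin ℚ {α : ℂ | α ∈ A}) ∧
          FiniteDimensional ℚ (IntermediateField.adjoin ℚ {α : ℂ | α ∈ A}) ∧
          p ^ n ∣ (if p = 2 then 4 else p) *
            Module.finrank ℚ (IntermediateField.adjoin ℚ {α : ℂ | α ∈ A}) := by
  obtain ⟨N, hN⟩ := Y701.ZT.global_final h
  refine ⟨N, fun n hn K hK => ⟨W90.ZT.exists_roots_complex h K n hK, fun A hA => ?_⟩⟩
  obtain ⟨h1, -, h3, h4⟩ := hN n hn K hK A hA
  exact ⟨h3, h1, h4⟩

end Pool.Agent.Results.MP_dfc37b_nt.CyclotomicLayers
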